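import Pool.Agent.Lib.MP_c1c6b6_al.Alt8

set_option autoImplicit false

open CategoryTheory

namespace Pool.Agent.Variants.MP_c1c6b6_al.Alternating

/-- Belonogov's conjecture on alternating groups: `A_n` has no pair of semiproportional irreducible
characters. -/
theorem result :
    ∀ (n : ℕ) (V W : FDRep ℂ (alternatingGroup (Fin n))),
      Simple V → Simple W →
      (¬ ∃ a b : ℂ, (a ≠ 0 ∨ b ≠ 0) ∧ ∀ g, a * V.character g = b * W.character g) →
      ¬ ∃ M : Set (alternatingGroup (Fin n)), (∀ g h, g ∈ M → h * g * h⁻¹ ∈ M) ∧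
        (∃ a b : ℂ, (a ≠ 0 ∨ b ≠ 0) ∧ ∀ g, g ∈ M → a * V.character g = b * W.character g) ∧
        (∃ a b : ℂ, (a ≠ 0 ∨ b ≠ 0) ∧ ∀ g, g ∉ M → a * V.character g = b * W.character g) := by
  intro n V W _ _ hnp ⟨M, _, hM, hM'⟩
  have hrel : ∀ g, (Module.finrank ℂ W : ℂ) * V.character g = Module.finrank ℂ V * W.character g ∨
      (Module.finrank ℂ V : ℂ) * V.character g = -(Module.finrank ℂ W * W.character g) := by
    by_cases h1 : (1 : alternatingGroup (Fin n)) ∈ M
    · exact SemiProp.rel_of_semiproportional V W hnp M h1 hM hM'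
    · refine SemiProp.rel_of_semiproportional V W hnp Mᶜ h1 hM' ?_
      simpa using hM
  have hH : (Fintype.card (Fin n)).factorial ≤ 2 * Nat.card (alternatingGroup (Fin n)) := by
    rcases subsingleton_or_nontrivial (Fin n) with h | h
    · have h1 : Fintype.card (Fin n) ≤ 1 := Fintype.card_le_one_iff_subsingleton.2 h
      have h2 : 0 < Nat.card (alternatingGroup (Fin n)) := Nat.card_pos
      have h3 := Nat.factorial_le h1
      rw [Nat.factorial_one] at h3
      omega
    · rw [two_mul_nat_card_alternatingGroup, Nat.card_perm, Nat.card_eq_fintype_card]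
  have hV := SemiProp.irr_of_simple V
  have hW := SemiProp.irr_of_simple W
  have hd := SemiProp.Alt.degree_eq_alt (V := V) (U := W) (f := (alternatingGroup (Fin n)).subtype)
    Subtype.val_injective hH hV hW hrel
  have h0 : (Module.finrank ℂ W : ℂ) ≠ 0 := by exact_mod_cast hW.finrank_pos.ne'
  have h1 := SemiProp.Alt.char_eq_alt (V := V) (U := W) hV hW hd fun g => by
    have h2 := hrel g
    rw [hd, ← mul_neg] at h2
    exact h2.imp (mul_left_cancel₀ h0) (mul_left_cancel₀ h0)
  exact hnp ⟨1, 1, Or.inl one_ne_zero, fun g => congrArg (1 * ·) (congrFun h1 g)⟩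

end Pool.Agent.Variants.MP_c1c6b6_al.Alternating
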