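import Pool.Agent.Results.MP_c1c6b6_al.PNilpotent

set_option autoImplicit false

open CategoryTheory

namespace Pool.Agent.Variants.MP_c1c6b6_al.Corollaries

open Pool.Agent.Results.MP_c1c6b6_al.PNilpotent

/-- The case of a derived subgroup that is `p`-nilpotent for all primes `p = 1 mod 4`. -/
theorem one_mod_four (G : Type) [Group G] [Fintype G] (V W : FDRep ℂ G) [Simple V] [Simple W]
    (hle : Module.finrank ℂ W ≤ Module.finrank ℂ V)
    (h : ∀ p : ℕ, p.Prime → p % 4 = 1 → DerivedPNilpotent V p)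
    (hnp : ¬ ∃ a b : ℂ, (a ≠ 0 ∨ b ≠ 0) ∧ ∀ g : G, a * V.character g = b * W.character g)
    (hM : ∃ M : Set G, (∀ g h : G, g ∈ M → h * g * h⁻¹ ∈ M) ∧
        (∃ a b : ℂ, (a ≠ 0 ∨ b ≠ 0) ∧ ∀ g : G, g ∈ M → a * V.character g = b * W.character g) ∧
        (∃ a b : ℂ, (a ≠ 0 ∨ b ≠ 0) ∧ ∀ g : G, g ∉ M → a * V.character g = b * W.character g)) :
    V.character 1 = W.character 1 := by
  rcases hle.eq_or_lt with h1 | hlt
  · rw [FDRep.char_one, FDRep.char_one, h1]
  have iV := Pool.Agent.SemiProp.irr_of_simple V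
  have iW := Pool.Agent.SemiProp.irr_of_simple W
  have hg := Nat.gcd_pos_of_pos_left (Module.finrank ℂ W) iV.finrank_pos
  obtain ⟨q, hq, hq4, hqN⟩ := Pool.Agent.SemiProp.exists_prime_one_mod_four
    (Nat.coprime_div_gcd_div_gcd hg)
    (Nat.div_pos (Nat.gcd_le_right _ iW.finrank_pos) hg)
    (Nat.div_lt_div_of_lt_of_dvd (Nat.gcd_dvd_left _ _) hlt)
  exact result G V W q inferInstance inferInstance hle hq hqN (h q hq hq4) hnp hM

/-- The case of a nilpotent derived subgroup. -/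
theorem nilpotent (G : Type) [Group G] [Fintype G] (V W : FDRep ℂ G) [Simple V] [Simple W]
    (hle : Module.finrank ℂ W ≤ Module.finrank ℂ V)
    (h : Group.IsNilpotent ((commutator G).map (Representation.asGroupHom V.ρ)))
    (hnp : ¬ ∃ a b : ℂ, (a ≠ 0 ∨ b ≠ 0) ∧ ∀ g : G, a * V.character g = b * W.character g)
    (hM : ∃ M : Set G, (∀ g h : G, g ∈ M → h * g * h⁻¹ ∈ M) ∧
        (∃ a b : ℂ, (a ≠ 0 ∨ b ≠ 0) ∧ ∀ g : G, g ∈ M → a * V.character g = b * W.character g) ∧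
        (∃ a b : ℂ, (a ≠ 0 ∨ b ≠ 0) ∧ ∀ g : G, g ∉ M → a * V.character g = b * W.character g)) :
    V.character 1 = W.character 1 :=
  one_mod_four G V W hle
    (fun _ hp _ => Pool.Agent.SemiProp.exists_of_nilpotent (V := V) V.ρ h hp) hnp hM

end Pool.Agent.Variants.MP_c1c6b6_al.Corollaries
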