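import Pool.Agent.Results.MP_c1c6b6_al.HeightZero

/-! Consequences of `HeightZero.result`: primes whose cube does not divide the group order. -/

set_option autoImplicit false

open CategoryTheory

namespace Pool.Agent.Variants.MP_c1c6b6_al.CubeFree

variable {G : Type} [Group G] [Fintype G] (V W : FDRep ℂ G) [hV : Simple V] [hW : Simple W]

theorem cube_dvd {l : ℕ} (hl : l.Prime)
    (h1 : ¬ ∃ a b : ℂ, (a ≠ 0 ∨ b ≠ 0) ∧ ∀ g : G, a * V.character g = b * W.character g)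
    (h2 : ∃ M : Set G, (∀ g h : G, g ∈ M → h * g * h⁻¹ ∈ M) ∧
      (∃ a b : ℂ, (a ≠ 0 ∨ b ≠ 0) ∧ ∀ g : G, g ∈ M → a * V.character g = b * W.character g) ∧
      (∃ a b : ℂ, (a ≠ 0 ∨ b ≠ 0) ∧ ∀ g : G, g ∉ M → a * V.character g = b * W.character g))
    (hlt : padicValNat l (Module.finrank ℂ W) < padicValNat l (Module.finrank ℂ V)) :
    l ^ 3 ∣ Nat.card G := by
  obtain ⟨P, hP, hlP⟩ := SemiProp.HZ.exists_max hl
  rcases Results.MP_c1c6b6_al.HeightZero.result G V W l P hV hW hl hP hlP h1 h2 hlt with h | h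
  · exact (pow_dvd_pow _ (by omega)).trans h.2
  · refine (pow_dvd_pow _ ?_).trans h.2
    by_contra hn
    exact h.1 fun U _ _ => by omega

/-- the conjecture for groups of cube-free order -/
theorem cubeFree (hG : ∀ l : ℕ, l.Prime → ¬ l ^ 3 ∣ Nat.card G)
    (h1 : ¬ ∃ a b : ℂ, (a ≠ 0 ∨ b ≠ 0) ∧ ∀ g : G, a * V.character g = b * W.character g)
    (h2 : ∃ M : Set G, (∀ g h : G, g ∈ M → h * g * h⁻¹ ∈ M) ∧
      (∃ a b : ℂ, (a ≠ 0 ∨ b ≠ 0) ∧ ∀ g : G, g ∈ M → a * V.character g = b * W.character g) ∧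
      (∃ a b : ℂ, (a ≠ 0 ∨ b ≠ 0) ∧ ∀ g : G, g ∉ M → a * V.character g = b * W.character g)) :
    V.character 1 = W.character 1 := by
  rw [FDRep.char_one, FDRep.char_one, Nat.cast_inj, Nat.eq_iff_prime_padicValNat_eq _ _
    (SemiProp.irr_of_simple V).finrank_pos.ne' (SemiProp.irr_of_simple W).finrank_pos.ne']
  intro l hl
  by_contra hne
  rcases lt_or_gt_of_ne hne with h | h
  · obtain ⟨M, k1, ⟨a, b, k2, k3⟩, ⟨c, d, k4, k5⟩⟩ := h2
    exact hG l hl (cube_dvd W V hl (fun ⟨a, b, h3, h4⟩ => h1 ⟨b, a, h3.symm, fun g => (h4 g).symm⟩)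
      ⟨M, k1, ⟨b, a, k2.symm, fun g hg => (k3 g hg).symm⟩,
        ⟨d, c, k4.symm, fun g hg => (k5 g hg).symm⟩⟩ h)
  · exact hG l hl (cube_dvd V W hl h1 h2 h)

end Pool.Agent.Variants.MP_c1c6b6_al.CubeFree
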