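import Pool.Agent.Lib.MP_c1c6b6_al.Simple

set_option autoImplicit false

open CategoryTheory

namespace Pool.Agent.Variants.MP_c1c6b6_al.Metabelian

/-- Belonogov's conjecture when the character of larger degree has metabelian image
(in particular for all finite metabelian groups): if `V`, `W` are irreducible complex
representations of a finite group `G` with semiproportional characters, `dim W ≤ dim V`, and the
second derived subgroup of `G` acts trivially on `V`, then the two degrees are equal. -/
theorem result :
    ∀ (G : Type) [Group G] [Fintype G] (V W : FDRep ℂ G),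
      Simple V → Simple W →
      Module.finrank ℂ W ≤ Module.finrank ℂ V →
      (∀ g ∈ derivedSeries G 2, V.ρ g = 1) →
      (¬ ∃ a b : ℂ, (a ≠ 0 ∨ b ≠ 0) ∧ ∀ g : G, a * V.character g = b * W.character g) →
      (∃ M : Set G, (∀ g h : G, g ∈ M → h * g * h⁻¹ ∈ M) ∧
        (∃ a b : ℂ, (a ≠ 0 ∨ b ≠ 0) ∧ ∀ g : G, g ∈ M → a * V.character g = b * W.character g) ∧
        (∃ a b : ℂ, (a ≠ 0 ∨ b ≠ 0) ∧ ∀ g : G, g ∉ M → a * V.character g = b * W.character g)) →
      V.character 1 = W.character 1 := by
  intro G _ _ V W _ _ hle hV hnp ⟨M, _, hM, hM'⟩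
  refine Pool.Agent.SemiProp.degree_eq V W hV hle ?_
  by_cases h1 : (1 : G) ∈ M
  · exact Pool.Agent.SemiProp.rel_of_semiproportional V W hnp M h1 hM hM'
  · refine Pool.Agent.SemiProp.rel_of_semiproportional V W hnp Mᶜ h1 hM' ?_
    simpa using hM

end Pool.Agent.Variants.MP_c1c6b6_al.Metabelian
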