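import Pool.Agent.Lib.MP_c1c6b6_al.Wr5
import Pool.Agent.Lib.MP_c1c6b6_al.Simple

set_option autoImplicit false

open CategoryTheory

namespace Pool.Agent.Variants.MP_c1c6b6_al.Wreath

/-- `G` is isomorphic to a subgroup of index at most two of the wreath product of `K` with `S_n`. -/
def IndexLeTwoInWreath (G K : Type) [Group G] [Group K] (n : ℕ) : Prop :=
  ∃ j : G →* (Fin n → K) ⋊[mulAutArrow] Equiv.Perm (Fin n),
    Function.Injective j ∧ j.range.index ≤ 2

/-- Belonogov's conjecture for the subgroups of index at most two in the wreath product of a finite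
group `K` with `S_n`, when no prime `p ≡ 1 mod 4` divides the order of `K`. -/
theorem result :
    ∀ (G K : Type) [Group G] [Fintype G] [Group K] [Fintype K] (n : ℕ) (V W : FDRep ℂ G),
      (∀ p : ℕ, p.Prime → p ∣ Nat.card K → p % 4 ≠ 1) → IndexLeTwoInWreath G K n →
      Simple V → Simple W →
      (¬ ∃ a b : ℂ, (a ≠ 0 ∨ b ≠ 0) ∧ ∀ g : G, a * V.character g = b * W.character g) →
      (∃ M : Set G, (∀ g h : G, g ∈ M → h * g * h⁻¹ ∈ M) ∧
        (∃ a b : ℂ, (a ≠ 0 ∨ b ≠ 0) ∧ ∀ g : G, g ∈ M → a * V.character g = b * W.character g) ∧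
        (∃ a b : ℂ, (a ≠ 0 ∨ b ≠ 0) ∧ ∀ g : G, g ∉ M → a * V.character g = b * W.character g)) →
      V.character 1 = W.character 1 := by
  intro G K _ _ _ _ n V W hK ⟨j, hj, hH⟩ _ _ hnp ⟨M, _, hM, hM'⟩
  have hrel : ∀ g, (Module.finrank ℂ W : ℂ) * V.character g = Module.finrank ℂ V * W.character g ∨
      (Module.finrank ℂ V : ℂ) * V.character g = -(Module.finrank ℂ W * W.character g) := by
    by_cases h1 : (1 : G) ∈ M
    · exact SemiProp.rel_of_semiproportional V W hnp M h1 hM hM'
    · refine SemiProp.rel_of_semiproportional V W hnp Mᶜ h1 hM' ?_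
      simpa using hM
  have h1 := j.range.card_mul_index
  rw [SemidirectProduct.card, Nat.card_fun, Nat.card_perm, Nat.card_eq_fintype_card (α := K),
    Nat.card_eq_fintype_card (α := Fin n), ← Nat.card_congr (j.ofInjective hj).toEquiv] at h1
  rw [FDRep.char_one, FDRep.char_one, SemiProp.Alt.degree_eq_wr (V := V) (U := W) hK hj
    (by rw [← h1, mul_comm 2]; exact Nat.mul_le_mul_left _ hH)
    (SemiProp.irr_of_simple V) (SemiProp.irr_of_simple W) hrel]

end Pool.Agent.Variants.MP_c1c6b6_al.Wreath
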